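import Pool.Agent.R966.CD.Blocks

/-!
The events of the blocks and their conditional probabilities, for a fixed dimension and large ratio of
the radii.
-/

set_option autoImplicit false

namespace Pool.Agent.K7.H80.CD2

open Pool.Agent.R966.CD
open MeasureTheory ProbabilityTheory
open scoped NNReal ENNReal

/-- parameters: resolution `2 ^ (-N)`, ratio of the radii `2 ^ β`, number of levels `k` -/
structure Pa where
  N : ℕ
  β : ℕ
  g : ℕ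
  f : ℕ
  k : ℕ
  hβg : β = 2 * g
  hg : 100 * f + 1000 ≤ g
  hf : β ≤ 4^f
  hN : 2 * β * (k + 2) + 2 * k + 4 * f + 200 ≤ N

namespace Pa

variable (P : Pa)

/-- variance of a cell -/
noncomputable def v : ℝ≥0 := ((2:ℝ≥0)^P.N)⁻¹

theorem v_pos : 0 < P.v := by unfold v; positivity

/-- window of level `i`, in cells -/
def w (i : ℕ) : ℕ := 2^(P.N + P.β - 2*P.β*i)

/-- scale of the cells for the returns -/
def Hd (i l : ℕ) : ℕ := P.N - 2*P.β*(i+l) - 11 - 2*P.f - l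

/-- scale of the cells for the oscillations -/
def Hk (i : ℕ) : ℕ := P.N - 2*P.β*i - 21 - 2*P.f

/-- scale of the intervals with many cut times -/
def HJ (i : ℕ) : ℕ := P.N - 2*P.β*i - 24 - 2*P.f

/-- radius of level `i` -/
noncomputable def r (n : ℕ) (i : ℕ) : ℝ := Real.sqrt n / 2^(P.β*i)

/-- factor for the size of the core -/
noncomputable def X : ℝ := 2^(6 + P.f + P.g)

theorem hβ : 2000 + 200 * P.f ≤ P.β := by
  have := P.hβg
  have := P.hg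
  omega

theorem exp_le {i : ℕ} (h : i ≤ P.k + 1) : 2*P.β*i + 2 * P.β + 2 * P.k + 4 * P.f + 200 ≤ P.N := by
  have h1 := P.hN
  have h2 : 2*P.β*i ≤ 2*P.β*(P.k+1) := Nat.mul_le_mul_left _ h
  have h3 : 2 * P.β * (P.k + 2) = 2*P.β*(P.k+1) + 2 * P.β := by ring
  omega

theorem w_real {i : ℕ} (h : i ≤ P.k + 1) : (P.w i : ℝ) * P.v = 2^P.β / 2^(2*P.β*i) := by
  unfold w v
  have h1 := P.exp_le h
  push_cast
  obtain ⟨c, hc⟩ : ∃ c, P.N = 2*P.β*i + c := ⟨P.N - 2*P.β*i, by omega⟩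
  have e1 : P.N + P.β - 2*P.β*i = c + P.β := by omega
  rw [e1, hc, pow_add, pow_add]
  field_simp

theorem w_ratio {i : ℕ} (h : i + 1 ≤ P.k + 1) : P.w i = 2^(2*P.β) * P.w (i+1) := by
  unfold w
  have h1 := P.exp_le h
  rw [← pow_add]
  congr 1
  have : 2*P.β*(i+1) = 2*P.β*i + 2*P.β := by ring
  omega

theorem four_w {i : ℕ} (h : i + 1 ≤ P.k + 1) : 4 * P.w (i+1) ≤ P.w i := by
  rw [P.w_ratio h]
  apply Nat.mul_le_mul_right
  have h1 := P.hβ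
  calc 4 = 2^2 := by norm_num
    _ ≤ 2^(2*P.β) := Nat.pow_le_pow_right (by norm_num) (by omega)

/-- window of level `i` as a set of cells -/
noncomputable def W (i : ℕ) : Finset ℤ := Finset.Ico (-(P.w i : ℤ)) (P.w i)

/-- the cells of block `i` -/
noncomputable def A (i : ℕ) : Finset ℤ := P.W i \ P.W (i+2)

/-- anchors at scale `2 ^ H` in the shell `i` -/
noncomputable def anc (i H : ℕ) : Finset ℤ :=
  (((Finset.range (P.w i / 2^H + 1)).filter fun a => P.w (i+1) ≤ a * 2^H ∧ a * 2^H ≤ P.w i).image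
    fun a : ℕ => ((a * 2^H : ℕ) : ℤ)) ∪
  (((Finset.range (P.w i / 2^H + 1)).filter fun a => P.w (i+1) ≤ a * 2^H ∧ a * 2^H ≤ P.w i).image
    fun a : ℕ => -((a * 2^H : ℕ) : ℤ))

theorem card_anc (i H : ℕ) : (P.anc i H).card ≤ 2 * (P.w i / 2^H + 1) := by
  unfold anc
  refine (Finset.card_union_le _ _).trans ?_
  have h1 : ∀ f : ℕ → ℤ, (((Finset.range (P.w i / 2^H + 1)).filter
      fun a => P.w (i+1) ≤ a * 2^H ∧ a * 2^H ≤ P.w i).image f).card ≤ P.w i / 2^H + 1 := by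
    intro f
    refine Finset.card_image_le.trans ((Finset.card_filter_le _ _).trans ?_)
    rw [Finset.card_range]
  have := h1 fun a : ℕ => ((a * 2^H : ℕ) : ℤ)
  have := h1 fun a : ℕ => -((a * 2^H : ℕ) : ℤ)
  omega

theorem mem_anc {i H : ℕ} {p : ℤ} : p ∈ P.anc i H ↔ ∃ a : ℕ, P.w (i+1) ≤ a * 2^H ∧
    a * 2^H ≤ P.w i ∧ (p = ((a * 2^H : ℕ) : ℤ) ∨ p = -((a * 2^H : ℕ) : ℤ)) := by
  unfold anc
  rw [Finset.mem_union, Finset.mem_image, Finset.mem_image]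
  have hr : ∀ a : ℕ, a * 2^H ≤ P.w i → a ∈ Finset.range (P.w i / 2^H + 1) := by
    intro a ha
    rw [Finset.mem_range]
    have : a ≤ P.w i / 2^H := by
      rw [Nat.le_div_iff_mul_le (by positivity)]; exact ha
    omega
  constructor
  · rintro (⟨a, ha, rfl⟩ | ⟨a, ha, rfl⟩)
    · rw [Finset.mem_filter] at ha
      exact ⟨a, ha.2.1, ha.2.2, Or.inl rfl⟩
    · rw [Finset.mem_filter] at ha
      exact ⟨a, ha.2.1, ha.2.2, Or.inr rfl⟩
  · rintro ⟨a, h1, h2, h3 | h3⟩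
    · left
      exact ⟨a, Finset.mem_filter.mpr ⟨hr a h2, h1, h2⟩, h3.symm⟩
    · right
      exact ⟨a, Finset.mem_filter.mpr ⟨hr a h2, h1, h2⟩, h3.symm⟩

theorem anc_abs {i H : ℕ} {p : ℤ} (h : p ∈ P.anc i H) : (P.w (i+1) : ℤ) ≤ |p| ∧ |p| ≤ P.w i := by
  obtain ⟨a, h1, h2, h3⟩ := P.mem_anc.mp h
  have h1' : (P.w (i+1) : ℤ) ≤ ((a * 2^H : ℕ) : ℤ) := by exact_mod_cast h1
  have h2' : ((a * 2^H : ℕ) : ℤ) ≤ P.w i := by exact_mod_cast h2
  have h0 : (0:ℤ) ≤ ((a * 2^H : ℕ) : ℤ) := Int.natCast_nonneg _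
  rcases h3 with rfl | rfl
  · rw [abs_of_nonneg h0]; exact ⟨h1', h2'⟩
  · rw [abs_neg, abs_of_nonneg h0]; exact ⟨h1', h2'⟩

/-- anchors are multiples of the scale -/
theorem anc_dvd {i H : ℕ} {p : ℤ} (h : p ∈ P.anc i H) : ((2^H : ℕ) : ℤ) ∣ p := by
  obtain ⟨a, h1, h2, h3⟩ := P.mem_anc.mp h
  rcases h3 with rfl | rfl
  · exact ⟨a, by push_cast; ring⟩
  · exact ⟨-a, by push_cast; ring⟩

/-- small balls: returns to the centre -/
def SBd (n i l : ℕ) : Set (ℤ → E n) :=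
  ⋃ p ∈ P.anc i (P.Hd i l), {x | ‖S x p - S x 0‖ ≤ 6 * P.r n (i+l)}

/-- small balls: pairs -/
def SBp (n i : ℕ) : Set (ℤ → E n) :=
  ⋃ pq ∈ ((P.anc i (P.Hd i 1)) ×ˢ (P.anc i (P.Hd i 1))).filter
    fun pq : ℤ × ℤ => pq.1 + (P.w (i+1) : ℤ) ≤ pq.2,
    {x | ‖S x pq.2 - S x pq.1‖ ≤ 7 * P.r n (i+1)}

/-- small balls: from the centre to a far cell -/
def SBc (n i : ℕ) : Set (ℤ → E n) :=
  ⋃ p ∈ (P.anc i (P.Hd i 1)).filter fun p : ℤ => ((2^(P.HJ i - 1) : ℕ) : ℤ) ≤ |p|,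
    {x | ‖S x p - S x 0‖ ≤ 3 * P.X * P.r n (i+1)}

/-- block `i` spoils the level `i + l` -/
def Fdown (n i l : ℕ) : Set (ℤ → E n) :=
  OE n (P.w (i+1)) (P.w i) (P.Hd i l) (P.r n (i+l)) ∪ P.SBd n i l

/-- block `i` spoils the level `i - l` -/
def Fup (n i l : ℕ) : Set (ℤ → E n) :=
  OE n (P.w (i+1)) (P.w i) (P.N + P.β + 1 - 2*P.β*i) (P.X * P.r n i * ((2:ℝ)^P.β / 2)^(l-1))

/-- the core spoils the level `k - l` -/
def Fcore (n l : ℕ) : Set (ℤ → E n) :=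
  OE n 0 (P.w P.k) (P.N + P.β + 1 - 2*P.β*P.k) (P.X * P.r n P.k * ((2:ℝ)^P.β / 2)^(l-1))

theorem measurable_ball (n : ℕ) (u w : ℤ) (ρ : ℝ) : MeasurableSet {x : ℤ → E n | ‖S x u - S x w‖ ≤ ρ} :=
  measurableSet_le ((measurable_S _).sub (measurable_S _)).norm measurable_const

theorem measurable_Fcore (n l : ℕ) : MeasurableSet (P.Fcore n l) := measurable_OE _ _ _ _ _

/-! ### conditional probabilities -/

theorem card_inter (i : ℕ) {u w : ℤ} (h1 : -(P.w i : ℤ) ≤ u) (h2 : w ≤ P.w i) :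
    ((w - u : ℤ) : ℝ) - 2 * P.w (i+2) ≤ ((P.A i ∩ Finset.Ico u w).card : ℝ) := by
  have hsub : Finset.Ico u w ⊆ (P.A i ∩ Finset.Ico u w) ∪ P.W (i+2) := by
    intro j hj
    rw [Finset.mem_union]
    by_cases h : j ∈ P.W (i+2)
    · exact Or.inr h
    · left
      rw [Finset.mem_inter]
      refine ⟨?_, hj⟩
      unfold A
      rw [Finset.mem_sdiff]
      refine ⟨?_, h⟩
      unfold W
      rw [Finset.mem_Ico] at hj ⊢
      omega
  have h3 := (Finset.card_le_card hsub).trans (Finset.card_union_le _ _)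
  rw [Int.card_Ico] at h3
  have h4 : (P.W (i+2)).card = 2 * P.w (i+2) := by
    unfold W
    rw [Int.card_Ico]
    omega
  rw [h4] at h3
  have h5 : (w - u : ℤ) ≤ ((w - u).toNat : ℤ) := Int.self_le_toNat _
  have h6 : (((w - u).toNat : ℕ) : ℝ) ≤ (P.A i ∩ Finset.Ico u w).card + 2 * P.w (i+2) := by
    exact_mod_cast h3
  have h7 : ((w - u : ℤ) : ℝ) ≤ (((w - u).toNat : ℕ) : ℝ) := by exact_mod_cast h5
  linarith

theorem r_pos {n : ℕ} (hn : 1 ≤ n) (i : ℕ) : 0 < P.r n i := by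
  unfold r
  have : (0:ℝ) < n := by exact_mod_cast hn
  positivity

theorem X_pos : 0 < P.X := by unfold X; positivity

theorem r_sq (n i : ℕ) : P.r n i ^ 2 = n / 2^(2*P.β*i) := by
  unfold r
  rw [div_pow, Real.sq_sqrt (Nat.cast_nonneg n), ← pow_mul]
  congr 2
  ring

theorem X_sq : P.X ^ 2 = 2^12 * (4^P.f * 2^P.β) := by
  unfold X
  have e4 : (4:ℝ) = 2^2 := by norm_num
  rw [P.hβg, e4, ← pow_mul, ← pow_mul, ← pow_add, ← pow_add]
  congr 1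
  ring

/-- small ball estimate for a block -/
theorem Q_sb {n : ℕ} (hn : 1 ≤ n) (i : ℕ) (hi : i + 1 ≤ P.k) {u w : ℤ} (h1 : -(P.w i : ℤ) ≤ u)
    (h2 : w ≤ P.w i) (d : ℕ) (hd : P.w (i+1) ≤ d) (h3 : u + d ≤ w) (ρ m : ℝ) (hm : 0 < m)
    (hρ : 0 < ρ) (h : 6 * m^2 * ρ^2 ≤ n * (d * P.v)) (x : ℤ → E n) :
    Q n P.v (P.A i) {x | ‖S x w - S x u‖ ≤ ρ} x ≤ ENNReal.ofReal ((1/m)^n) := by
  have hw1 := P.four_w (show i + 1 + 1 ≤ P.k + 1 by omega)
  have hv : (0:ℝ) ≤ P.v := P.v.2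
  refine Q_small P.v (P.A i) (by omega) ρ ((d:ℝ)/2 * P.v) m hm hρ ?_ ?_ x
  · apply mul_le_mul_of_nonneg_right _ hv
    refine le_trans ?_ (P.card_inter i h1 h2)
    have e1 : (d : ℝ) ≤ ((w - u : ℤ) : ℝ) := by exact_mod_cast (by omega : (d : ℤ) ≤ w - u)
    have e2 : 4 * (P.w (i+2) : ℝ) ≤ P.w (i+1) := by exact_mod_cast hw1
    have e3 : (P.w (i+1) : ℝ) ≤ d := by exact_mod_cast hd
    linarith
  · have : (n:ℝ) * ((d:ℝ)/2 * P.v) = n * (d * P.v) / 2 := by ring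
    rw [this]
    linarith

theorem shell_sub (i : ℕ) (hi : i + 1 ≤ P.k) (j : ℤ)
    (h : (P.w (i+1) : ℤ) ≤ j ∧ j < P.w i ∨ -(P.w i : ℤ) ≤ j ∧ j < -(P.w (i+1) : ℤ)) : j ∈ P.A i := by
  have hw1 := P.four_w (show i + 1 + 1 ≤ P.k + 1 by omega)
  have hw2 : (4:ℤ) * P.w (i+2) ≤ P.w (i+1) := by exact_mod_cast hw1
  unfold A W
  rw [Finset.mem_sdiff, Finset.mem_Ico, Finset.mem_Ico]
  omega

theorem scale_d {i l : ℕ} (hil : i + l ≤ P.k + 1) (hl : l ≤ P.k + 1) :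
    (2:ℝ)^(P.Hd i l) * P.v = 1 / (2^(2*P.β*(i+l)) * 2^(11 + 2*P.f + l)) := by
  unfold Hd v
  have h1 := P.exp_le hil
  push_cast
  obtain ⟨c, hc⟩ : ∃ c, P.N = 2*P.β*(i+l) + (11 + 2*P.f + l) + c :=
    ⟨P.N - (2*P.β*(i+l) + (11 + 2*P.f + l)), by omega⟩
  have e1 : P.N - 2*P.β*(i+l) - 11 - 2*P.f - l = c := by omega
  rw [e1, hc, pow_add _ _ c, pow_add]
  field_simp

theorem count_d {i l : ℕ} (hil : i + l ≤ P.k + 1) (hl : l ≤ P.k + 1) :
    P.w i = 2^(P.β + 2*P.β*l + 11 + 2*P.f + l) * 2^(P.Hd i l) := by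
  unfold Hd w
  have h1 := P.exp_le hil
  rw [← pow_add]
  congr 1
  have : 2*P.β*(i+l) = 2*P.β*i + 2*P.β*l := by ring
  omega

theorem exp_bound (β n l : ℕ) : Real.exp (-(7 * ((β:ℝ) * l) * n)) ≤ (1/2 : ℝ)^(10*(β*l)*n) := by
  have h1 : Real.exp (-7) ≤ (1/2)^10 := by
    rw [Real.exp_neg]
    have h3 : Real.exp 7 = (Real.exp 1)^7 := by rw [← Real.exp_nat_mul]; norm_num
    have h4 : (1024 : ℝ) ≤ Real.exp 7 := by
      rw [h3]
      calc (1024:ℝ) ≤ (2.7182818283)^7 := by norm_num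
        _ ≤ _ := pow_le_pow_left₀ (by norm_num) Real.exp_one_gt_d9.le 7
    calc (Real.exp 7)⁻¹ ≤ (1024:ℝ)⁻¹ := inv_anti₀ (by norm_num) h4
      _ = _ := by norm_num
  have h2 : Real.exp (-(7 * ((β:ℝ) * l) * n)) = (Real.exp (-7))^((β*l)*n) := by
    rw [← Real.exp_nat_mul]
    congr 1
    push_cast
    ring
  rw [h2]
  have e : 10*(β*l)*n = 10*((β*l)*n) := by ring
  rw [e, pow_mul (1/2:ℝ)]
  exact pow_le_pow_left₀ (Real.exp_pos _).le h1 _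

theorem r_shift (n i j : ℕ) : P.r n (i + j) = P.r n i / 2^(P.β*j) := by
  unfold r
  rw [mul_add, pow_add, div_div]

/-- comparison of exponents -/
theorem pow_cmp {a b c : ℕ} (h : a + c ≤ b) : (2:ℝ)^a * (1/2:ℝ)^b ≤ (1/2:ℝ)^c := by
  obtain ⟨d, rfl⟩ : ∃ d, b = a + c + d := ⟨b - (a + c), by omega⟩
  rw [pow_add, pow_add]
  have e1 : (2:ℝ)^a * (1/2:ℝ)^a = 1 := by rw [← mul_pow]; norm_num
  have e2 : (1/2:ℝ)^d ≤ 1 := pow_le_one₀ (by norm_num) (by norm_num)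
  have e3 : (0:ℝ) ≤ (1/2:ℝ)^c := by positivity
  calc (2:ℝ)^a * ((1/2:ℝ)^a * (1/2:ℝ)^c * (1/2:ℝ)^d) = ((2:ℝ)^a * (1/2:ℝ)^a) * ((1/2:ℝ)^c * (1/2:ℝ)^d) := by ring
    _ = (1/2:ℝ)^c * (1/2:ℝ)^d := by rw [e1, one_mul]
    _ ≤ (1/2:ℝ)^c * 1 := mul_le_mul_of_nonneg_left e2 e3
    _ = _ := mul_one _

theorem hf_real : (P.β : ℝ) ≤ 2^(2*P.f) := by
  have h := P.hf
  have : (P.β : ℝ) ≤ ((4^P.f : ℕ) : ℝ) := by exact_mod_cast h
  refine this.trans (le_of_eq ?_)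
  push_cast
  rw [pow_mul]
  norm_num

theorem one_le_β : (1:ℝ) ≤ P.β := by
  have := P.hβ
  exact_mod_cast (by omega : 1 ≤ P.β)

theorem Q_OEd {n : ℕ} (hn : 200 ≤ n) (i l : ℕ) (hl : 1 ≤ l) (hil : i + l ≤ P.k) (x : ℤ → E n) :
    Q n P.v (P.A i) (OE n (P.w (i+1)) (P.w i) (P.Hd i l) (P.r n (i+l))) x ≤
      ENNReal.ofReal ((1/2 : ℝ)^(20*P.β*l)) := by
  have hl' : (1:ℝ) ≤ l := by exact_mod_cast hl
  have hβ1 := P.one_le_β
  refine (Q_OE P.v_pos (P.r_pos (by omega) _).le (P.shell_sub i (by omega)) ((P.β:ℝ) * l)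
    (by nlinarith) (by omega) ?_ x).trans ?_
  · rw [P.scale_d (by omega) (by omega), P.r_sq]
    have h1 : (1152:ℝ) * ((P.β:ℝ) * l) ≤ 2^(11 + 2*P.f + l) := by
      have h2 : (l:ℝ) ≤ 2^l := by exact_mod_cast Nat.lt_two_pow_self.le
      have h3 := P.hf_real
      have h4 : (P.β:ℝ) * l ≤ 2^(2*P.f) * 2^l := mul_le_mul h3 h2 (by positivity) (by positivity)
      rw [pow_add, pow_add]
      have h5 : (0:ℝ) ≤ 2^(2*P.f) * 2^l := by positivity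
      nlinarith
    have h2 : (0:ℝ) < 2^(2*P.β*(i+l)) := by positivity
    have h3 : (0:ℝ) < 2^(11 + 2*P.f + l) := by positivity
    rw [mul_one_div, div_le_div_iff₀ (by positivity) h2]
    calc 1152 * ((P.β:ℝ) * l) * n * 2^(2*P.β*(i+l)) = (1152 * ((P.β:ℝ) * l)) * (n * 2^(2*P.β*(i+l))) := by ring
      _ ≤ 2^(11 + 2*P.f + l) * (n * 2^(2*P.β*(i+l))) := mul_le_mul_of_nonneg_right h1 (by positivity)
      _ = _ := by ring
  · apply ENNReal.ofReal_le_ofReal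
    have h4 : (P.w i : ℝ) / 2^(P.Hd i l) = 2^(P.β + 2*P.β*l + 11 + 2*P.f + l) := by
      rw [P.count_d (show i + l ≤ P.k + 1 by omega) (by omega)]
      push_cast
      field_simp
    rw [h4]
    have h5 := exp_bound P.β n l
    calc 2 * (2:ℝ)^(P.β + 2*P.β*l + 11 + 2*P.f + l) * Real.exp (-(7 * ((P.β:ℝ) * l) * n))
        ≤ 2 * (2:ℝ)^(P.β + 2*P.β*l + 11 + 2*P.f + l) * (1/2 : ℝ)^(10*(P.β*l)*n) :=
          mul_le_mul_of_nonneg_left h5 (by positivity)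
      _ = 2^(P.β + 2*P.β*l + 11 + 2*P.f + l + 1) * (1/2 : ℝ)^(10*(P.β*l)*n) := by
          rw [pow_succ]; ring
      _ ≤ _ := by
          apply pow_cmp
          have h6 := P.hβ
          obtain ⟨m, hm⟩ : ∃ m, m = P.β * l := ⟨_, rfl⟩
          have h7 : P.β ≤ m := by rw [hm]; exact Nat.le_mul_of_pos_right _ (by omega)
          have h8 : l ≤ m := by rw [hm]; exact Nat.le_mul_of_pos_left _ (by omega)
          have e1 : 2*P.β*l = 2*m := by rw [hm]; ring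
          have e2 : 20*P.β*l = 20*m := by rw [hm]; ring
          rw [e1, e2, ← hm]
          have h9 : 10*m*200 ≤ 10*m*n := Nat.mul_le_mul_left _ hn
          omega

/-- anchors as endpoints -/
theorem Q_anc {n : ℕ} (hn : 1 ≤ n) (i H : ℕ) (hi : i + 1 ≤ P.k) {p : ℤ} (hp : p ∈ P.anc i H)
    (d : ℕ) (hd : P.w (i+1) ≤ d) (hdp : (d : ℤ) ≤ |p|) (ρ m : ℝ) (hm : 0 < m)
    (hρ : 0 < ρ) (h : 6 * m^2 * ρ^2 ≤ n * (d * P.v)) (x : ℤ → E n) :
    Q n P.v (P.A i) {x | ‖S x p - S x 0‖ ≤ ρ} x ≤ ENNReal.ofReal ((1/m)^n) := by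
  obtain ⟨h1, h2⟩ := P.anc_abs hp
  rcases le_total 0 p with hp0 | hp0
  · rw [abs_of_nonneg hp0] at h1 h2 hdp
    exact P.Q_sb hn i hi (by omega) h2 d hd (by omega) ρ m hm hρ h x
  · rw [abs_of_nonpos hp0] at h1 h2 hdp
    have e : {x : ℤ → E n | ‖S x p - S x 0‖ ≤ ρ} = {x | ‖S x 0 - S x p‖ ≤ ρ} := by
      ext y
      simp only [Set.mem_ofPred_eq]
      rw [norm_sub_rev]
    rw [e]
    exact P.Q_sb hn i hi (by omega) (by omega) d hd (by omega) ρ m hm hρ h x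

theorem card_anc_real {i l : ℕ} (hl : 1 ≤ l) (hil : i + l ≤ P.k) :
    ((P.anc i (P.Hd i l)).card : ℝ) ≤ 2^(P.β + 2*P.β*l + 13 + 2*P.f + l) := by
  have h1 := P.card_anc i (P.Hd i l)
  have h2 : P.w i / 2^(P.Hd i l) = 2^(P.β + 2*P.β*l + 11 + 2*P.f + l) := by
    rw [P.count_d (show i + l ≤ P.k + 1 by omega) (by omega)]
    exact Nat.mul_div_cancel _ (by positivity)
  rw [h2] at h1
  have h3 : 1 ≤ 2^(P.β + 2*P.β*l + 11 + 2*P.f + l) := Nat.one_le_two_pow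
  have h4 : (P.anc i (P.Hd i l)).card ≤ 2^(P.β + 2*P.β*l + 13 + 2*P.f + l) := by
    have : P.β + 2*P.β*l + 13 + 2*P.f + l = (P.β + 2*P.β*l + 11 + 2*P.f + l) + 2 := by ring
    rw [this, pow_add]
    omega
  exact_mod_cast h4

/-- a union of balls -/
theorem Q_balls {n : ℕ} {ι : Type*} (A : Finset ℤ) (F : Finset ι) (s : ι → Set (ℤ → E n)) (x : ℤ → E n)
    (a b c : ℕ) (hF : (F.card : ℝ) ≤ 2^a) (hs : ∀ p ∈ F, Q n P.v A (s p) x ≤ ENNReal.ofReal ((1/2:ℝ)^b))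
    (h : a + c ≤ b) : Q n P.v A (⋃ p ∈ F, s p) x ≤ ENNReal.ofReal ((1/2:ℝ)^c) := by
  refine (Q_biUnion P.v A _ _ x).trans ?_
  refine (Finset.sum_le_sum hs).trans ?_
  rw [Finset.sum_const, nsmul_eq_mul, ← ENNReal.ofReal_natCast, ← ENNReal.ofReal_mul (by positivity)]
  apply ENNReal.ofReal_le_ofReal
  refine le_trans ?_ (pow_cmp h)
  exact mul_le_mul_of_nonneg_right hF (by positivity)

theorem Q_SBd {n : ℕ} (hn : 200 ≤ n) (i l : ℕ) (hl : 1 ≤ l) (hil : i + l ≤ P.k) (x : ℤ → E n) :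
    Q n P.v (P.A i) (P.SBd n i l) x ≤ ENNReal.ofReal ((1/2 : ℝ)^(20*P.β*l)) := by
  unfold SBd
  have hg := P.hg
  have hβg := P.hβg
  refine P.Q_balls (P.A i) _ _ x (P.β + 2*P.β*l + 13 + 2*P.f + l)
    (((P.g - 4) + P.β*(l-1)) * n) _ (P.card_anc_real hl hil) ?_ ?_
  · intro p hp
    refine (P.Q_anc (by omega) i _ (by omega) hp (P.w (i+1)) le_rfl (P.anc_abs hp).1
      (6 * P.r n (i+l)) (2^((P.g - 4) + P.β*(l-1))) (by positivity)
      (by have := P.r_pos (show 1 ≤ n by omega) (i+l); positivity) ?_ x).trans ?_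
    · rw [P.w_real (by omega), mul_pow, P.r_sq]
      have e1 : 2*P.β*(i+l) = 2*P.β*(i+1) + 2*P.β*(l-1) := by
        have : i + l = i + 1 + (l-1) := by omega
        rw [this]; ring
      rw [e1, pow_add 2 (2*P.β*(i+1)), pow_add 2 (P.g - 4)]
      have e2 : ((2:ℝ)^(P.β*(l-1)))^2 = 2^(2*P.β*(l-1)) := by rw [← pow_mul]; congr 1; ring
      have e3 : (2:ℝ)^P.β = ((2:ℝ)^(P.g - 4))^2 * 256 := by
        obtain ⟨e, he⟩ : ∃ e, P.g = 4 + e := ⟨P.g - 4, by omega⟩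
        have e5 : P.g - 4 = e := by omega
        rw [e5, hβg, he, ← pow_mul, mul_comm e 2, mul_add, pow_add]
        norm_num
        ring
      rw [mul_pow, e2, e3]
      have h2 : (0:ℝ) < 2^(2*P.β*(i+1)) := by positivity
      have h3 : (0:ℝ) < 2^(2*P.β*(l-1)) := by positivity
      have h4 : (0:ℝ) < ((2:ℝ)^(P.g - 4))^2 := by positivity
      have e4 : 6 * (((2:ℝ)^(P.g - 4))^2 * (2:ℝ)^(2*P.β*(l-1))) * (6^2 * (n / (2^(2*P.β*(i+1)) * 2^(2*P.β*(l-1))))) =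
          216 * (((2:ℝ)^(P.g - 4))^2 * (n / 2^(2*P.β*(i+1)))) := by
        field_simp
        norm_num
      have e5 : (n:ℝ) * (((2:ℝ)^(P.g - 4))^2 * 256 / 2^(2*P.β*(i+1))) =
          256 * (((2:ℝ)^(P.g - 4))^2 * (n / 2^(2*P.β*(i+1)))) := by ring
      rw [e4, e5]
      apply mul_le_mul_of_nonneg_right (by norm_num)
      positivity
    · apply ENNReal.ofReal_le_ofReal
      apply le_of_eq
      rw [one_div, one_div, inv_pow, inv_pow, ← pow_mul]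
  · obtain ⟨m, hm⟩ : ∃ m, m = P.g * l := ⟨_, rfl⟩
    obtain ⟨l', rfl⟩ : ∃ l', l = l' + 1 := ⟨l - 1, by omega⟩
    have h7 : P.g ≤ m := by rw [hm]; exact Nat.le_mul_of_pos_right _ (by omega)
    have h8 : l' + 1 ≤ m := by rw [hm]; exact Nat.le_mul_of_pos_left _ (by omega)
    have hm' : m = P.g * l' + P.g := by rw [hm]; ring
    have e1 : 2*P.β*(l'+1) = 4*m := by rw [hm, hβg]; ring
    have e2 : 20*P.β*(l'+1) = 40*m := by rw [hm, hβg]; ring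
    have e3 : P.β*(l'+1-1) = 2*(P.g*l') := by rw [hβg, Nat.add_sub_cancel]; ring
    rw [e1, e2, e3]
    have h9 : (P.g - 4 + 2*(P.g*l')) * 200 ≤ (P.g - 4 + 2*(P.g*l')) * n := Nat.mul_le_mul_left _ hn
    omega

theorem Q_up {n : ℕ} (hn : 200 ≤ n) (l i lo : ℕ) (A : Finset ℤ) (hl : 1 ≤ l) (hi : i ≤ P.k)
    (hA : ∀ j : ℤ, (lo : ℤ) ≤ j ∧ j < P.w i ∨ -(P.w i : ℤ) ≤ j ∧ j < -(lo : ℤ) → j ∈ A) (x : ℤ → E n) :
    Q n P.v A (OE n lo (P.w i) (P.N + P.β + 1 - 2*P.β*i) (P.X * P.r n i * ((2:ℝ)^P.β / 2)^(l-1))) x ≤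
      ENNReal.ofReal ((1/2 : ℝ)^(20*P.β*l)) := by
  have hl' : (1:ℝ) ≤ l := by exact_mod_cast hl
  have hβ1 := P.one_le_β
  have hβ := P.hβ
  have hr := P.r_pos (show 1 ≤ n by omega) i
  have hX := P.X_pos
  refine (Q_OE P.v_pos (by positivity) hA ((P.β:ℝ) * l) (by nlinarith) (by omega) ?_ x).trans ?_
  · have e1 : (2:ℝ)^(P.N + P.β + 1 - 2*P.β*i) * P.v = 2 * ((P.w i : ℝ) * P.v) := by
      unfold w
      have h1 := P.exp_le (show i ≤ P.k + 1 by omega)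
      have : P.N + P.β + 1 - 2*P.β*i = (P.N + P.β - 2*P.β*i) + 1 := by omega
      rw [this, pow_succ]
      push_cast
      ring
    rw [e1, P.w_real (by omega), mul_pow, mul_pow, P.r_sq, P.X_sq]
    have h2 : (0:ℝ) < 2^(2*P.β*i) := by positivity
    have h3 : (l:ℝ) ≤ (((2:ℝ)^P.β / 2)^(l-1))^2 := by
      have h4 : (2:ℝ) ≤ (2:ℝ)^P.β / 2 := by
        rw [le_div_iff₀ (by norm_num)]
        have : (2:ℝ)^2 ≤ 2^P.β := pow_le_pow_right₀ (by norm_num) (by omega)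
        linarith
      have h5 : (2:ℝ)^(l-1) ≤ ((2:ℝ)^P.β / 2)^(l-1) := pow_le_pow_left₀ (by norm_num) h4 _
      have h6 : ((l - 1 : ℕ) : ℝ) + 1 ≤ 2^(l-1) := by exact_mod_cast Nat.lt_two_pow_self
      have h7 : ((l - 1 : ℕ) : ℝ) + 1 = l := by
        have : (l - 1) + 1 = l := by omega
        exact_mod_cast this
      have h8 : (1:ℝ) ≤ ((2:ℝ)^P.β / 2)^(l-1) := one_le_pow₀ (by linarith)
      nlinarith
    have h4 : (P.β : ℝ) ≤ 4^P.f := by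
      have := P.hf_real
      rwa [pow_mul, show (2:ℝ)^2 = 4 by norm_num] at this
    have h9 : (P.β : ℝ) * l ≤ 4^P.f * (((2:ℝ)^P.β / 2)^(l-1))^2 :=
      mul_le_mul h4 h3 (by positivity) (by positivity)
    have e5 : 1152 * ((P.β:ℝ) * l) * n * (2 * (2^P.β / 2^(2*P.β*i))) =
        ((P.β:ℝ) * l) * (2304 * (2^P.β * (n / 2^(2*P.β*i)))) := by
      field_simp
      norm_num
    have e6 : 2^12 * ((4:ℝ)^P.f * 2^P.β) * ((n:ℝ) / 2^(2*P.β*i)) * (((2:ℝ)^P.β / 2)^(l-1))^2 =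
        (4^P.f * (((2:ℝ)^P.β / 2)^(l-1))^2) * (4096 * (2^P.β * (n / 2^(2*P.β*i)))) := by
      ring
    rw [e5, e6]
    apply mul_le_mul h9 _ (by positivity) (by positivity)
    apply mul_le_mul_of_nonneg_right (by norm_num)
    positivity
  · apply ENNReal.ofReal_le_ofReal
    have h1 := P.exp_le (show i ≤ P.k + 1 by omega)
    have e1 : 2 * ((P.w i : ℝ) / 2^(P.N + P.β + 1 - 2*P.β*i)) = 1 := by
      unfold w
      have : P.N + P.β + 1 - 2*P.β*i = (P.N + P.β - 2*P.β*i) + 1 := by omega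
      rw [this, pow_succ]
      push_cast
      field_simp
    rw [e1, one_mul]
    refine (exp_bound P.β n l).trans ?_
    apply pow_le_pow_of_le_one (by norm_num) (by norm_num)
    have h9 : 10*(P.β*l)*200 ≤ 10*(P.β*l)*n := Nat.mul_le_mul_left _ hn
    have : 20*P.β*l = 20*(P.β*l) := by ring
    omega

theorem Q_Fup {n : ℕ} (hn : 200 ≤ n) (i l : ℕ) (hl : 1 ≤ l) (hi : i + 1 ≤ P.k) (x : ℤ → E n) :
    Q n P.v (P.A i) (P.Fup n i l) x ≤ ENNReal.ofReal ((1/2 : ℝ)^(20*P.β*l)) :=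
  P.Q_up hn l i _ _ hl (by omega) (P.shell_sub i (by omega)) x

/-- probabilities of the events of the core -/
theorem Q_Fcore {n : ℕ} (hn : 200 ≤ n) (l : ℕ) (hl : 1 ≤ l) (x : ℤ → E n) :
    Q n P.v (P.W 0) (P.Fcore n l) x ≤ ENNReal.ofReal ((1/2 : ℝ)^(20*P.β*l)) := by
  refine P.Q_up hn l P.k 0 _ hl le_rfl ?_ x
  intro j hj
  have h1 : P.w P.k ≤ P.w 0 := by
    unfold w
    exact Nat.pow_le_pow_right (by norm_num) (by omega)
  have h2 : (P.w P.k : ℤ) ≤ P.w 0 := by exact_mod_cast h1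
  unfold W
  rw [Finset.mem_Ico]
  push_cast at hj
  omega

theorem Q_osc {n : ℕ} (hn : 200 ≤ n) (i : ℕ) (hi : i + 1 ≤ P.k) (x : ℤ → E n) :
    Q n P.v (P.A i) (OE n (P.w (i+1)) (P.w i) (P.Hk i) (P.r n i / 32)) x ≤
      ENNReal.ofReal ((1/2 : ℝ)^(20*P.β)) := by
  have hr := P.r_pos (show 1 ≤ n by omega) i
  have hβ1 := P.one_le_β
  have hβ := P.hβ
  refine (Q_OE P.v_pos (by positivity) (P.shell_sub i (by omega)) (P.β:ℝ) hβ1 (by omega) ?_ x).trans ?_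
  · have h1 := P.exp_le (show i ≤ P.k + 1 by omega)
    have e1 : (2:ℝ)^(P.Hk i) * P.v = 1 / (2^(2*P.β*i) * (2^21 * 2^(2*P.f))) := by
      unfold Hk v
      push_cast
      obtain ⟨c, hc⟩ : ∃ c, P.N = 2*P.β*i + (21 + 2*P.f) + c := ⟨P.N - (2*P.β*i + (21 + 2*P.f)), by omega⟩
      have e1 : P.N - 2*P.β*i - 21 - 2*P.f = c := by omega
      rw [e1, hc, pow_add _ _ c, pow_add, pow_add 2 21]
      field_simp
    rw [e1, div_pow, P.r_sq]
    have h2 : (0:ℝ) < 2^(2*P.β*i) := by positivity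
    have h3 : (0:ℝ) < 2^(2*P.f) := by positivity
    have h4 : (P.β : ℝ) / 2^(2*P.f) ≤ 1 := by
      rw [div_le_one h3]; exact P.hf_real
    have e2 : 1152 * (P.β:ℝ) * n * (1 / (2^(2*P.β*i) * (2^21 * 2^(2*P.f)))) =
        (1152/2^21) * (P.β / 2^(2*P.f)) * (n / 2^(2*P.β*i)) := by
      field_simp
    have e3 : (n:ℝ) / 2^(2*P.β*i) / 32^2 = (1/1024) * (n / 2^(2*P.β*i)) := by ring
    rw [e2, e3]
    apply mul_le_mul_of_nonneg_right _ (by positivity)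
    have h5 : (0:ℝ) ≤ (P.β : ℝ) / 2^(2*P.f) := by positivity
    nlinarith
  · apply ENNReal.ofReal_le_ofReal
    have h1 := P.exp_le (show i ≤ P.k + 1 by omega)
    have e1 : (P.w i : ℝ) / 2^(P.Hk i) = 2^(P.β + 21 + 2*P.f) := by
      unfold w Hk
      have : P.N + P.β - 2*P.β*i = (P.β + 21 + 2*P.f) + (P.N - 2*P.β*i - 21 - 2*P.f) := by omega
      rw [this, pow_add]
      push_cast
      field_simp
    rw [e1]
    have h5 := exp_bound P.β n 1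
    push_cast at h5
    rw [mul_one, mul_one] at h5
    calc 2 * (2:ℝ)^(P.β + 21 + 2*P.f) * Real.exp (-(7 * (P.β:ℝ) * n))
        ≤ 2 * (2:ℝ)^(P.β + 21 + 2*P.f) * (1/2 : ℝ)^(10*P.β*n) :=
          mul_le_mul_of_nonneg_left h5 (by positivity)
      _ = 2^(P.β + 21 + 2*P.f + 1) * (1/2 : ℝ)^(10*P.β*n) := by rw [pow_succ]; ring
      _ ≤ _ := by
          apply pow_cmp
          have h9 : 10*P.β*200 ≤ 10*P.β*n := Nat.mul_le_mul_left _ hn
          omega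

theorem Q_SBp {n : ℕ} (hn : 200 ≤ n) (i : ℕ) (hi : i + 1 ≤ P.k) (x : ℤ → E n) :
    Q n P.v (P.A i) (P.SBp n i) x ≤ ENNReal.ofReal ((1/2 : ℝ)^(20*P.β)) := by
  have hg := P.hg
  have hβg := P.hβg
  have hr1 := P.r_pos (show 1 ≤ n by omega) (i+1)
  have hcard := P.card_anc_real (i := i) (l := 1) le_rfl (by omega)
  rw [mul_one] at hcard
  unfold SBp
  refine P.Q_balls (P.A i) _ _ x (2 * (P.β + 2*P.β + 13 + 2*P.f + 1)) ((P.g - 5) * n) _ ?_ ?_ ?_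
  · have h1 : ((((P.anc i (P.Hd i 1)) ×ˢ (P.anc i (P.Hd i 1))).filter
        (fun pq : ℤ × ℤ => pq.1 + (P.w (i+1) : ℤ) ≤ pq.2)).card : ℝ) ≤
        ((P.anc i (P.Hd i 1)).card : ℝ) * ((P.anc i (P.Hd i 1)).card : ℝ) := by
      rw [← Nat.cast_mul, ← Finset.card_product]
      exact_mod_cast Finset.card_filter_le _ _
    refine h1.trans ?_
    rw [mul_comm 2, pow_mul, sq]
    exact mul_le_mul hcard hcard (Nat.cast_nonneg _) (by positivity)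
  · intro pq hpq
    rw [Finset.mem_filter, Finset.mem_product] at hpq
    obtain ⟨⟨hp, hq⟩, hd⟩ := hpq
    have a1 := (P.anc_abs hp).2
    have a2 := (P.anc_abs hq).2
    rw [abs_le] at a1 a2
    refine (P.Q_sb (by omega) i hi a1.1 a2.2 (P.w (i+1)) le_rfl hd _ (2^(P.g - 5)) (by positivity)
      (by positivity) ?_ x).trans ?_
    · rw [P.w_real (by omega), mul_pow, P.r_sq]
      have e3 : (2:ℝ)^P.β = ((2:ℝ)^(P.g - 5))^2 * 1024 := by
        obtain ⟨e, he⟩ : ∃ e, P.g = 5 + e := ⟨P.g - 5, by omega⟩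
        have e5 : P.g - 5 = e := by omega
        rw [e5, hβg, he, ← pow_mul, mul_comm e 2, mul_add, pow_add]
        norm_num
        ring
      rw [e3]
      have e4 : 6 * ((2:ℝ)^(P.g - 5))^2 * (7^2 * (n / 2^(2*P.β*(i+1)))) =
          294 * (((2:ℝ)^(P.g - 5))^2 * (n / 2^(2*P.β*(i+1)))) := by
        ring
      have e5 : (n:ℝ) * (((2:ℝ)^(P.g - 5))^2 * 1024 / 2^(2*P.β*(i+1))) =
          1024 * (((2:ℝ)^(P.g - 5))^2 * (n / 2^(2*P.β*(i+1)))) := by ring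
      rw [e4, e5]
      apply mul_le_mul_of_nonneg_right (by norm_num)
      positivity
    · apply ENNReal.ofReal_le_ofReal
      apply le_of_eq
      rw [one_div, one_div, inv_pow, inv_pow, ← pow_mul]
  · have h9 : (P.g - 5) * 200 ≤ (P.g - 5) * n := Nat.mul_le_mul_left _ hn
    omega

theorem Q_SBc {n : ℕ} (hn : 200 ≤ n) (i : ℕ) (hi : i + 1 ≤ P.k) (x : ℤ → E n) :
    Q n P.v (P.A i) (P.SBc n i) x ≤ ENNReal.ofReal ((1/2 : ℝ)^(20*P.β)) := by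
  have hg := P.hg
  have hβg := P.hβg
  have hr1 := P.r_pos (show 1 ≤ n by omega) (i+1)
  have hX := P.X_pos
  have hcard := P.card_anc_real (i := i) (l := 1) le_rfl (by omega)
  rw [mul_one] at hcard
  have hexp := P.exp_le (show i + 1 ≤ P.k + 1 by omega)
  have hmul : 2*P.β*(i+1) = 2*P.β*i + 2*P.β := by ring
  unfold SBc
  refine P.Q_balls (P.A i) _ _ x (P.β + 2*P.β + 13 + 2*P.f + 1) ((P.g - 22 - 2*P.f) * n) _ ?_ ?_ ?_
  · refine le_trans ?_ hcard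
    exact_mod_cast Finset.card_filter_le _ _
  · intro p hp
    rw [Finset.mem_filter] at hp
    refine (P.Q_anc (by omega) i _ hi hp.1 (2^(P.HJ i - 1)) ?_ hp.2 _ (2^(P.g - 22 - 2*P.f))
      (by positivity) (by positivity) ?_ x).trans ?_
    · unfold w HJ
      exact Nat.pow_le_pow_right (by norm_num) (by omega)
    · have e1 : (((2^(P.HJ i - 1) : ℕ) : ℝ)) * P.v = 1 / (2^(2*P.β*i) * 2^(25 + 2*P.f)) := by
        unfold HJ v
        push_cast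
        obtain ⟨c, hc⟩ : ∃ c, P.N = 2*P.β*i + (25 + 2*P.f) + c := ⟨P.N - (2*P.β*i + (25 + 2*P.f)), by omega⟩
        have e1 : P.N - 2*P.β*i - 24 - 2*P.f - 1 = c := by omega
        rw [e1, hc, pow_add _ _ c, pow_add]
        field_simp
      rw [e1, mul_pow, mul_pow, P.r_sq, P.X_sq, hmul, pow_add 2 (2*P.β*i)]
      obtain ⟨e, he⟩ : ∃ e, P.g = 22 + 2*P.f + e := ⟨P.g - (22 + 2*P.f), by omega⟩
      have e5 : P.g - 22 - 2*P.f = e := by omega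
      have e6 : (2:ℝ)^(2*P.β) = 2^P.β * (2^44 * (2^(4*P.f) * 2^(2*e))) := by
        rw [← pow_add, ← pow_add, ← pow_add]
        congr 1
        omega
      have e7 : (4:ℝ)^P.f = 2^(2*P.f) := by rw [pow_mul]; norm_num
      have e8 : (2:ℝ)^(4*P.f) = 2^(2*P.f) * 2^(2*P.f) := by rw [← pow_add]; congr 1; ring
      have e9 : ((2:ℝ)^e)^2 = 2^(2*e) := by rw [← pow_mul]; congr 1; ring
      rw [e5, e6, e7, e8, e9, pow_add 2 25]
      have h1 : (0:ℝ) < 2^(2*P.f) := by positivity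
      have h2 : (0:ℝ) < 2^(2*e) := by positivity
      have h3 : (0:ℝ) < 2^P.β := by positivity
      have h4 : (0:ℝ) < 2^(2*P.β*i) := by positivity
      have e10 : 6 * (2:ℝ)^(2*e) * (3^2 * (2^12 * (2^(2*P.f) * 2^P.β)) *
          (n / (2^(2*P.β*i) * (2^P.β * (2^44 * (2^(2*P.f) * 2^(2*P.f) * 2^(2*e))))))) =
          (54 * 2^12 / 2^44) * (n / (2^(2*P.β*i) * 2^(2*P.f))) := by
        field_simp
        norm_num
      have e11 : (n:ℝ) * (1 / (2^(2*P.β*i) * (2^25 * 2^(2*P.f)))) =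
          (1 / 2^25) * (n / (2^(2*P.β*i) * 2^(2*P.f))) := by
        field_simp
      rw [e10, e11]
      apply mul_le_mul_of_nonneg_right (by norm_num)
      positivity
    · apply ENNReal.ofReal_le_ofReal
      apply le_of_eq
      rw [one_div, one_div, inv_pow, inv_pow, ← pow_mul]
  · have h9 : (P.g - 22 - 2*P.f) * 200 ≤ (P.g - 22 - 2*P.f) * n := Nat.mul_le_mul_left _ hn
    omega

end Pa

end Pool.Agent.K7.H80.CD2
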