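import Pool.Agent.R966.CD.Blocks

/-!
Independence of events which depend on disjoint sets of cells.
-/

set_option autoImplicit false

namespace Pool.Agent.K7.H80.CD2

open Pool.Agent.R966.CD
open MeasureTheory ProbabilityTheory
open scoped NNReal ENNReal

variable {n : ℕ}

/-- **independence** -/
theorem lmarginal_inter {ι : Type*} (v : ℝ≥0) (D : ι → Finset ℤ) (s : ι → Set (ℤ → E n))
    (hs : ∀ t, MeasurableSet (s t))
    (hdep : ∀ (t : ι) (x y : ℤ → E n), (∀ j ∈ D t, x j = y j) → (x ∈ s t ↔ y ∈ s t)) (p : ℝ≥0∞)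
    (T : Finset ι) (hp : ∀ t ∈ T, ∀ x, Q n v (D t) (s t) x ≤ p)
    (hdisj : (T : Set ι).PairwiseDisjoint D) (x : ℤ → E n) :
    (∫⋯∫⁻_(T.biUnion D), (⋂ t ∈ T, s t).indicator 1 ∂(fun _ => gam n v)) x ≤ p^T.card := by
  classical
  induction T using Finset.induction_on generalizing x with
  | empty =>
    simp
  | insert t T ht ih =>
    have hT : (T : Set ι).PairwiseDisjoint D := hdisj.subset (by
      intro j hj
      exact Finset.mem_coe.mpr (Finset.mem_insert_of_mem (Finset.mem_coe.mp hj)))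
    have hDd : ∀ t' ∈ T, Disjoint (D t') (D t) := by
      intro t' ht'
      refine hdisj (by simp [ht']) (by simp) ?_
      rintro rfl
      exact ht ht'
    have hdT : Disjoint (T.biUnion D) (D t) := by
      rw [Finset.disjoint_biUnion_left]
      exact hDd
    have hmI : ∀ T' : Finset ι, MeasurableSet (⋂ t' ∈ T', s t') := fun T' =>
      Finset.measurableSet_biInter T' fun t' _ => hs t'
    have hm : ∀ T' : Finset ι, Measurable ((⋂ t' ∈ T', s t').indicator (1 : (ℤ → E n) → ℝ≥0∞)) :=
      fun T' => measurable_one.indicator (hmI T')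
    rw [Finset.biUnion_insert, Finset.union_comm, lmarginal_union _ _ (hm _) hdT,
      Finset.card_insert_of_notMem ht, pow_succ']
    have hstep : (∫⋯∫⁻_(D t), (⋂ t' ∈ insert t T, s t').indicator 1 ∂(fun _ => gam n v)) ≤
        fun y => p * (⋂ t' ∈ T, s t').indicator (1 : (ℤ → E n) → ℝ≥0∞) y := by
      intro y
      show _ ≤ p * (⋂ t' ∈ T, s t').indicator (1 : (ℤ → E n) → ℝ≥0∞) y
      by_cases hy : y ∈ ⋂ t' ∈ T, s t'
      · rw [Set.indicator_of_mem hy, Pi.one_apply, mul_one]
        have hle : (⋂ t' ∈ insert t T, s t').indicator (1 : (ℤ → E n) → ℝ≥0∞) ≤ (s t).indicator 1 := by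
          apply Set.indicator_le_indicator_of_subset
          · intro z hz
            simp only [Set.mem_iInter] at hz
            exact hz t (Finset.mem_insert_self _ _)
          · intro _
            exact zero_le
        refine (lmarginal_mono hle y).trans ?_
        rw [Q_eq v (D t) (s t) (hs t) y]
        exact hp t (Finset.mem_insert_self _ _) y
      · rw [Set.indicator_of_notMem hy, mul_zero]
        unfold lmarginal
        refine le_of_eq ((lintegral_congr (g := fun _ => 0) fun z => ?_).trans lintegral_zero)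
        apply Set.indicator_of_notMem
        intro hmem
        apply hy
        simp only [Set.mem_iInter] at hmem ⊢
        intro t' ht'
        refine (hdep t' _ _ ?_).mp (hmem t' (Finset.mem_insert_of_mem ht'))
        intro j hj
        rw [Function.updateFinset, dif_neg]
        exact fun hj' => (Finset.disjoint_left.mp (hDd t' ht')) hj hj'
    refine (lmarginal_mono hstep x).trans ?_
    have h2 : (∫⋯∫⁻_(T.biUnion D), (fun y => p * (⋂ t' ∈ T, s t').indicator (1 : (ℤ → E n) → ℝ≥0∞) y)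
        ∂(fun _ => gam n v)) x =
        p * (∫⋯∫⁻_(T.biUnion D), (⋂ t' ∈ T, s t').indicator 1 ∂(fun _ => gam n v)) x := by
      unfold lmarginal
      exact lintegral_const_mul p ((hm T).comp measurable_updateFinset)
    rw [h2]
    exact mul_le_mul_right (ih (fun t' ht' => hp t' (Finset.mem_insert_of_mem ht')) hT x) _

theorem Q_inter {ι : Type*} (v : ℝ≥0) (D : ι → Finset ℤ) (s : ι → Set (ℤ → E n))
    (hs : ∀ t, MeasurableSet (s t))
    (hdep : ∀ (t : ι) (x y : ℤ → E n), (∀ j ∈ D t, x j = y j) → (x ∈ s t ↔ y ∈ s t)) (p : ℝ≥0∞)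
    (T : Finset ι) (hp : ∀ t ∈ T, ∀ x, Q n v (D t) (s t) x ≤ p)
    (hdisj : (T : Set ι).PairwiseDisjoint D) (A : Finset ℤ) (hA : ∀ t ∈ T, D t ⊆ A) (x : ℤ → E n) :
    Q n v A (⋂ t ∈ T, s t) x ≤ p^T.card := by
  classical
  rw [← Q_eq v A _ (Finset.measurableSet_biInter T fun t _ => hs t)]
  exact lmarginal_le_of_subset' v (Finset.biUnion_subset.mpr hA) _
    (measurable_one.indicator (Finset.measurableSet_biInter T fun t _ => hs t)) _
    (fun y => lmarginal_inter v D s hs hdep p T hp hdisj y) x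

/-- many of the events -/
theorem Q_many (v : ℝ≥0) (D : ℕ → Finset ℤ) (s : ℕ → Set (ℤ → E n))
    (hs : ∀ t, MeasurableSet (s t))
    (hdep : ∀ (t : ℕ) (x y : ℤ → E n), (∀ j ∈ D t, x j = y j) → (x ∈ s t ↔ y ∈ s t)) (p : ℝ≥0∞)
    (m : ℕ) (hp : ∀ t < 2 * m, ∀ x, Q n v (D t) (s t) x ≤ p)
    (hdisj : ((Finset.range (2*m) : Finset ℕ) : Set ℕ).PairwiseDisjoint D) (A : Finset ℤ)
    (hA : ∀ t < 2 * m, D t ⊆ A) (x : ℤ → E n) :
    Q n v A (⋃ T ∈ Finset.powersetCard m (Finset.range (2*m)), ⋂ t ∈ T, s t) x ≤ 2^(2*m) * p^m := by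
  refine (Q_biUnion v A _ _ x).trans ?_
  have h1 : ∀ T ∈ Finset.powersetCard m (Finset.range (2*m)), Q n v A (⋂ t ∈ T, s t) x ≤ p^m := by
    intro T hT
    rw [Finset.mem_powersetCard] at hT
    have h := Q_inter v D s hs hdep p T (fun t ht => hp t (Finset.mem_range.mp (hT.1 ht)))
      (hdisj.subset (by exact_mod_cast hT.1)) A (fun t ht => hA t (Finset.mem_range.mp (hT.1 ht))) x
    rwa [hT.2] at h
  refine (Finset.sum_le_sum h1).trans ?_
  rw [Finset.sum_const, nsmul_eq_mul, Finset.card_powersetCard, Finset.card_range]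
  apply mul_le_mul_left
  have h2 : (2*m).choose m ≤ 2^(2*m) := Nat.choose_le_two_pow _ _
  exact_mod_cast h2

end Pool.Agent.K7.H80.CD2
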