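import Pool.Agent.K7.H80.CD2.Cut

/-!
The events of a block, and their conditional probabilities.
-/

set_option autoImplicit false

namespace Pool.Agent.K7.H80.CD2

open Pool.Agent.R966.CD
open MeasureTheory ProbabilityTheory
open scoped NNReal ENNReal

namespace Pa

variable (P : Pa)

/-- block `i` spoils the level `i` -/
def Fown (n i : ℕ) : Set (ℤ → E n) :=
  ((OE n (P.w (i+1)) (P.w i) (P.Hk i) (P.r n i / 32) ∪
    OE n (P.w (i+1)) (P.w i) (P.Hd i 1) (P.r n (i+1))) ∪ (P.SBp n i ∪ P.SBc n i)) ∪ P.CUT n i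

/-- the event of the block `i` -/
def F (n i l : ℕ) : Set (ℤ → E n) :=
  ((if i + l ≤ P.k then P.Fdown n i l else ∅) ∪ P.Fup n i l) ∪ (if l = 1 then P.Fown n i else ∅)

theorem measurable_F (n i l : ℕ) : MeasurableSet (P.F n i l) := by
  unfold F Fdown Fup Fown SBd SBp SBc
  refine MeasurableSet.union (MeasurableSet.union ?_ (measurable_OE _ _ _ _ _)) ?_
  · split
    · refine MeasurableSet.union (measurable_OE _ _ _ _ _) ?_
      exact Finset.measurableSet_biUnion _ fun p _ => measurable_ball n _ _ _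
    · exact MeasurableSet.empty
  · split
    · refine MeasurableSet.union (MeasurableSet.union (MeasurableSet.union (measurable_OE _ _ _ _ _)
        (measurable_OE _ _ _ _ _)) (MeasurableSet.union ?_ ?_)) (P.measurable_CUT n i)
      · exact Finset.measurableSet_biUnion _ fun p _ => measurable_ball n _ _ _
      · exact Finset.measurableSet_biUnion _ fun p _ => measurable_ball n _ _ _
    · exact MeasurableSet.empty

/-- **conditional probabilities of the events of a block** -/
theorem Q_F {n : ℕ} (hn : 200 ≤ n) (i l : ℕ) (hl : 1 ≤ l) (hi : i + 1 ≤ P.k) (x : ℤ → E n) :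
    Q n P.v (P.A i) (P.F n i l) x ≤ ENNReal.ofReal (((1/2 : ℝ)^(19*P.β))^l) := by
  have hβ := P.hβ
  unfold F
  obtain ⟨ε, hε⟩ : ∃ ε : ℝ, ε = (1/2 : ℝ)^(20*P.β*l) := ⟨_, rfl⟩
  have hε0 : 0 ≤ ε := by rw [hε]; positivity
  have b1 : Q n P.v (P.A i) (if i + l ≤ P.k then P.Fdown n i l else ∅) x ≤ ENNReal.ofReal (ε + ε) := by
    split
    · rename_i hil
      unfold Fdown
      rw [ENNReal.ofReal_add hε0 hε0, hε]
      exact (Q_union _ _ _ _ x).trans
        (add_le_add (P.Q_OEd hn i l hl hil x) (P.Q_SBd hn i l hl hil x))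
    · unfold Q
      simp
  have b3 := P.Q_Fup hn i l hl (by omega) x
  rw [← hε] at b3
  have b4 : Q n P.v (P.A i) (if l = 1 then P.Fown n i else ∅) x ≤
      ENNReal.ofReal (((ε + ε) + (ε + ε)) + ε) := by
    split
    · rename_i h
      subst h
      rw [mul_one] at hε
      have c1 := P.Q_osc hn i hi x
      have c2 := P.Q_OEd hn i 1 le_rfl (by omega) x
      have c3 := P.Q_SBp hn i hi x
      have c4 := P.Q_SBc hn i hi x
      have c5 := P.Q_CUT hn i hi x
      rw [mul_one] at c2
      rw [← hε] at c1 c2 c3 c4 c5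
      unfold Fown
      rw [ENNReal.ofReal_add (by positivity) hε0, ENNReal.ofReal_add (by positivity) (by positivity),
        ENNReal.ofReal_add hε0 hε0]
      refine (Q_union _ _ _ _ x).trans (add_le_add ?_ c5)
      refine (Q_union _ _ _ _ x).trans (add_le_add ?_ ?_)
      · exact (Q_union _ _ _ _ x).trans (add_le_add c1 c2)
      · exact (Q_union _ _ _ _ x).trans (add_le_add c3 c4)
    · unfold Q
      simp
  refine (Q_union _ _ _ _ x).trans ?_
  refine (add_le_add ((Q_union _ _ _ _ x).trans (add_le_add b1 b3)) b4).trans ?_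
  rw [← ENNReal.ofReal_add (by positivity) (by positivity),
    ← ENNReal.ofReal_add (by positivity) (by positivity)]
  apply ENNReal.ofReal_le_ofReal
  have e0 : ((1/2:ℝ)^(19*P.β))^l = (1/2:ℝ)^(19*P.β*l) := by rw [← pow_mul]
  have e1 : ε + ε + ε + (ε + ε + (ε + ε) + ε) = 2^3 * ε := by ring
  rw [e0, e1, hε]
  apply pow_cmp
  have h1 : P.β ≤ P.β * l := Nat.le_mul_of_pos_right _ (by omega)
  have e2 : 19*P.β*l = 19*(P.β*l) := by ring
  have e3 : 20*P.β*l = 20*(P.β*l) := by ring
  omega

/-- probabilities of the events of the core -/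
theorem Q_Fcore' {n : ℕ} (hn : 200 ≤ n) (l : ℕ) (hl : 1 ≤ l) (x : ℤ → E n) :
    Q n P.v (P.W 0) (P.Fcore n l) x ≤ ENNReal.ofReal (((1/2 : ℝ)^(19*P.β))^l) := by
  refine (P.Q_Fcore hn l hl x).trans (ENNReal.ofReal_le_ofReal ?_)
  rw [← pow_mul]
  apply pow_le_pow_of_le_one (by norm_num) (by norm_num)
  exact Nat.mul_le_mul_right _ (Nat.mul_le_mul_right _ (by norm_num))

end Pa

end Pool.Agent.K7.H80.CD2
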