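import Pool.Agent.K7.H80.CD2.Count2
import Pool.Agent.K7.H80.CD2.Path2
import Pool.Agent.R966.CD.Limit

/-!
From the walks to the path.
-/

set_option autoImplicit false

namespace Pool.Agent.K7.H80.CD2

open Pool.Agent.R966.CD
open MeasureTheory ProbabilityTheory Filter Topology
open scoped NNReal ENNReal

/-- the fixed parameters -/
structure Prm where
  β : ℕ
  g : ℕ
  f : ℕ
  hβg : β = 2 * g
  hg : 100 * f + 1000 ≤ g
  hf : β ≤ 4^f

/-- the exponent of the resolution -/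
def NN2 (R : Prm) (k m a : ℕ) : ℕ := 2*R.β*(k+2) + 2*k + 4*R.f + 200 + m + a

/-- the parameters along the refinements -/
def PP2 (R : Prm) (k m : ℕ) (a : ℕ) : Pa where
  N := NN2 R k m a
  β := R.β
  g := R.g
  f := R.f
  k := k
  hβg := R.hβg
  hg := R.hg
  hf := R.hf
  hN := by unfold NN2; omega

/-- the length of the chains -/
def cc (R : Prm) : ℕ := 2^(R.β - 30 - 2*R.f) * 2^(R.β - 27 - 2*R.f)

theorem NN2_tendsto (R : Prm) (k m : ℕ) : Tendsto (NN2 R k m) atTop atTop := by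
  refine tendsto_atTop_mono (f := fun a => a) (fun a => ?_) tendsto_id
  unfold NN2
  omega

/-- **a level which is good for the walks infinitely often is good for the path** -/
theorem good_of_frequently2 {n : ℕ} (γ : ℝ → E n) (hγ : ContinuousOn γ (Set.Icc 0 1)) (R : Prm)
    (k m i : ℕ) (hi : i ≤ 2^m) (j : ℕ) (hj : j < k) (x : ℕ → ℤ → E n)
    (hx : ∀ a : ℕ, ∀ u : ℤ, -((i * 2^(NN2 R k m a - m) : ℕ) : ℤ) ≤ u →
      u ≤ (2^(NN2 R k m a) : ℕ) - ((i * 2^(NN2 R k m a - m) : ℕ) : ℤ) →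
      S (x a) u = γ ((i:ℝ)/2^m + u / 2^(NN2 R k m a)) - γ ((i:ℝ)/2^m))
    (hf : ∃ᶠ a in atTop, (PP2 R k m a).GG n j (x a)) :
    GoodL γ (Real.sqrt n) (2^R.β) (2^R.β) (1/2^(21 + 2*R.f)) (cc R) j ((i:ℝ)/2^m) := by
  set t : ℝ := (i:ℝ)/2^m with ht
  have ht01 : t ∈ Set.Icc (0:ℝ) 1 := by
    constructor
    · positivity
    · rw [ht, div_le_one (by positivity)]
      exact_mod_cast hi
  have hNm : ∀ a, m ≤ NN2 R k m a := by intro a; unfold NN2; omega
  have hc : ∀ a, ((i * 2^(NN2 R k m a - m) : ℕ) : ℝ) = t * 2^(NN2 R k m a) := by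
    intro a
    push_cast
    obtain ⟨e, he⟩ : ∃ e, NN2 R k m a = m + e := ⟨NN2 R k m a - m, by have := hNm a; omega⟩
    rw [he, Nat.add_sub_cancel_left, pow_add, ht]
    field_simp
  have hP : ∀ a, (PP2 R k m a).N = NN2 R k m a := fun a => rfl
  have hPβ : ∀ a, (PP2 R k m a).β = R.β := fun a => rfl
  have hPf : ∀ a, (PP2 R k m a).f = R.f := fun a => rfl
  -- the value of the walk at the truncations
  have hval : ∀ u ∈ Set.Icc (0:ℝ) 1, ∀ a, S (x a) (tr t u (NN2 R k m a)) =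
      γ (t + (tr t u (NN2 R k m a)) / 2^(NN2 R k m a)) - γ t := by
    intro u hu a
    obtain ⟨h1, h2⟩ := tr_range ht01.2 hu (NN2 R k m a) _ (hc a)
    exact hx a _ h1 h2
  have hmem : ∀ u ∈ Set.Icc (0:ℝ) 1, ∀ a, t + (tr t u (NN2 R k m a)) / 2^(NN2 R k m a) ∈ Set.Icc (0:ℝ) 1 := by
    intro u hu a
    obtain ⟨h1, h2⟩ := tr_range ht01.2 hu (NN2 R k m a) _ (hc a)
    have h1' : -(((i * 2^(NN2 R k m a - m) : ℕ) : ℝ)) ≤ (tr t u (NN2 R k m a) : ℝ) := by exact_mod_cast h1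
    have h2' : (tr t u (NN2 R k m a) : ℝ) ≤ ((2^(NN2 R k m a) : ℕ) : ℝ) - ((i * 2^(NN2 R k m a - m) : ℕ) : ℝ) := by
      exact_mod_cast h2
    rw [hc a] at h1' h2'
    push_cast at h2'
    have hpos : (0:ℝ) < 2^(NN2 R k m a) := by positivity
    constructor
    · have : -t ≤ (tr t u (NN2 R k m a) : ℝ) / 2^(NN2 R k m a) := by
        rw [le_div_iff₀ hpos]; linarith
      linarith
    · have : (tr t u (NN2 R k m a) : ℝ) / 2^(NN2 R k m a) ≤ 1 - t := by
        rw [div_le_iff₀ hpos]; linarith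
      linarith
  have hlim : ∀ u ∈ Set.Icc (0:ℝ) 1, Tendsto (fun a => S (x a) (tr t u (NN2 R k m a))) atTop
      (𝓝 (γ u - γ t)) := by
    intro u hu
    have h1 : Tendsto (fun a => t + (tr t u (NN2 R k m a) : ℝ) / 2^(NN2 R k m a)) atTop
        (𝓝[Set.Icc (0:ℝ) 1] u) := by
      rw [tendsto_nhdsWithin_iff]
      refine ⟨?_, Eventually.of_forall (hmem u hu)⟩
      have := (tr_tendsto t u _ (NN2_tendsto R k m)).const_add t
      rwa [add_sub_cancel] at this
    have h2 := (hγ u hu).tendsto.comp h1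
    refine (h2.sub_const (γ t)).congr fun a => ?_
    rw [hval u hu a]
    rfl
  have hbp : ∀ j : ℕ, ((2:ℝ)^R.β)^(2*j) = 2^(2*R.β*j) := by
    intro j; rw [← pow_mul]; congr 1; ring
  have hbp1 : ∀ j : ℕ, ((2:ℝ)^R.β)^j = 2^(R.β*j) := by
    intro j; rw [← pow_mul]
  have hr : ∀ a j, (PP2 R k m a).r n j = Real.sqrt n / ((2:ℝ)^R.β)^j := by
    intro a j
    rw [hbp1]
    rfl
  -- the windows
  have hw : ∀ a i, i ≤ k + 1 → (((PP2 R k m a).w i : ℕ) : ℝ) = 2^R.β / 2^(2*R.β*i) * 2^(NN2 R k m a) := by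
    intro a i hi
    have h1 := (PP2 R k m a).w_real (i := i) hi
    have h2 : (((PP2 R k m a).v : ℝ≥0) : ℝ) = (2^(NN2 R k m a))⁻¹ := by
      unfold Pa.v
      push_cast
      rfl
    rw [h2, hPβ] at h1
    have h3 : (0:ℝ) < 2^(NN2 R k m a) := by positivity
    rw [← div_eq_mul_inv, div_eq_iff h3.ne'] at h1
    exact h1
  have hnormlim : ∀ u ∈ Set.Icc (0:ℝ) 1, ∀ v ∈ Set.Icc (0:ℝ) 1,
      Tendsto (fun a => ‖S (x a) (tr t u (NN2 R k m a)) - S (x a) (tr t v (NN2 R k m a))‖) atTop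
      (𝓝 (dist (γ u) (γ v))) := by
    intro u hu v hv
    have h1 := ((hlim u hu).sub (hlim v hv)).norm
    have e : ‖γ u - γ t - (γ v - γ t)‖ = dist (γ u) (γ v) := by
      rw [dist_eq_norm]; congr 1; abel
    rwa [e] at h1
  have hdifflim : ∀ u v : ℝ, Tendsto (fun a => |(tr t u (NN2 R k m a) : ℝ) / 2^(NN2 R k m a) -
      (tr t v (NN2 R k m a) : ℝ) / 2^(NN2 R k m a)|) atTop (𝓝 |u - v|) := by
    intro u v
    have h1 := ((tr_tendsto t u _ (NN2_tendsto R k m)).sub (tr_tendsto t v _ (NN2_tendsto R k m))).abs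
    have e : u - t - (v - t) = u - v := by ring
    rwa [e] at h1
  have hwin : ∀ u : ℝ, |u - t| ≤ 2^R.β / ((2:ℝ)^R.β)^(2*j) → ∀ a,
      |tr t u (NN2 R k m a)| ≤ ((PP2 R k m a).w j : ℤ) := by
    intro u hu a
    have h1 := tr_abs t u (NN2 R k m a)
    have h2 := hw a j (by omega)
    have h3 : (0:ℝ) < 2^(NN2 R k m a) := by positivity
    rw [hbp] at hu
    have h4 : |(tr t u (NN2 R k m a) : ℝ)| ≤ (((PP2 R k m a).w j : ℕ) : ℝ) := by
      rw [h2]
      exact h1.trans (mul_le_mul_of_nonneg_right hu h3.le)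
    exact_mod_cast h4
  refine ⟨?_, ?_, ?_⟩
  · intro u hu hd
    refine le_of_tendsto_of_frequently (hdifflim u t) ?_
    have htt : ∀ a, tr t t (NN2 R k m a) = 0 := by
      intro a; unfold tr; rw [if_pos le_rfl]; simp
    have hev : ∀ᶠ a in atTop, ‖S (x a) (tr t u (NN2 R k m a)) - S (x a) (tr t t (NN2 R k m a))‖ <
        5 * (Real.sqrt n / ((2:ℝ)^R.β)^j) := by
      refine (hnormlim u hu t ht01).eventually_lt_const ?_
      rwa [dist_comm]
    refine (hf.and_eventually hev).mono ?_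
    rintro a ⟨hG, h1⟩
    rw [htt a, S_zero, sub_zero, ← hr a j] at h1
    have h2 := hG.ret _ (by
      have h3 := tr_abs t u (NN2 R k m a)
      have h4 := hw a 0 (by omega)
      rw [mul_zero, pow_zero, div_one] at h4
      have h5 : |(tr t u (NN2 R k m a) : ℝ)| ≤ (((PP2 R k m a).w 0 : ℕ) : ℝ) := by
        rw [h4]
        refine h3.trans (mul_le_mul_of_nonneg_right ?_ (by positivity))
        have h10 : (1:ℝ) ≤ 2^R.β := one_le_pow₀ (by norm_num)
        rw [abs_le]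
        obtain ⟨h6, h7⟩ := hu
        obtain ⟨h8, h9⟩ := ht01
        constructor <;> linarith
      exact_mod_cast h5) h1
    have h3 : |(tr t u (NN2 R k m a) : ℝ)| ≤ (((PP2 R k m a).w j : ℕ) : ℝ) := by exact_mod_cast h2
    rw [hw a j (by omega)] at h3
    rw [htt a]
    have h6 : (0:ℝ) < 2^(NN2 R k m a) := by positivity
    rw [Int.cast_zero, zero_div, sub_zero, abs_div, abs_of_pos h6, div_le_iff₀ h6, hbp]
    exact h3
  · intro u hu v hv hut hvt hd
    refine ge_of_tendsto_of_frequently (hdifflim u v) ?_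
    have hev : ∀ᶠ a in atTop, (Real.sqrt n / ((2:ℝ)^R.β)^j) / 2 <
        ‖S (x a) (tr t u (NN2 R k m a)) - S (x a) (tr t v (NN2 R k m a))‖ :=
      (hnormlim u hu v hv).eventually_const_lt hd
    refine (hf.and_eventually hev).mono ?_
    rintro a ⟨hG, h1⟩
    rw [← hr a j] at h1
    have h2 := hG.osc _ _ (hwin u hut a) (hwin v hvt a) h1
    have h3 : (2:ℝ)^((PP2 R k m a).Hk j) ≤ |((tr t u (NN2 R k m a) : ℝ)) - (tr t v (NN2 R k m a) : ℝ)| := by
      exact_mod_cast h2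
    have h4 : (2:ℝ)^((PP2 R k m a).Hk j) = 1/2^(21 + 2*R.f) / 2^(2*R.β*j) * 2^(NN2 R k m a) := by
      unfold Pa.Hk
      have h5 := (PP2 R k m a).exp_le (i := j) (by show j ≤ k + 1; omega)
      rw [hP, hPβ, hPf] at h5 ⊢
      obtain ⟨e, he⟩ : ∃ e, NN2 R k m a = 2*R.β*j + (21 + 2*R.f) + e :=
        ⟨NN2 R k m a - (2*R.β*j + (21 + 2*R.f)), by omega⟩
      have e1 : NN2 R k m a - 2*R.β*j - 21 - 2*R.f = e := by omega
      rw [e1, he, pow_add _ _ e, pow_add 2 (2*R.β*j)]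
      field_simp
    rw [h4] at h3
    have h6 : (0:ℝ) < 2^(NN2 R k m a) := by positivity
    rw [← sub_div, abs_div, abs_of_pos h6, le_div_iff₀ h6, hbp]
    exact h3
  · intro L u hu hs hd
    have hev1 : ∀ᶠ a in atTop, ∀ l ∈ Finset.range L,
        ‖S (x a) (tr t (u (l+1)) (NN2 R k m a)) - S (x a) (tr t (u l) (NN2 R k m a))‖ <
        5 * (Real.sqrt n / ((2:ℝ)^R.β)^(j+1)) := by
      rw [Filter.eventually_all_finset]
      intro l hl
      rw [Finset.mem_range] at hl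
      exact (hnormlim _ (hu (l+1) (by omega)).1 _ (hu l (by omega)).1).eventually_lt_const (hs l hl)
    have hκ : (0:ℝ) < 1/2^(21 + 2*R.f) / ((2:ℝ)^R.β)^(2*j) := by positivity
    have hev2 : ∀ᶠ a in atTop, 1/2^(21 + 2*R.f) / ((2:ℝ)^R.β)^(2*j) / 2 <
        |(tr t (u L) (NN2 R k m a) : ℝ) / 2^(NN2 R k m a) -
        (tr t (u 0) (NN2 R k m a) : ℝ) / 2^(NN2 R k m a)| :=
      (hdifflim (u L) (u 0)).eventually_const_lt (by linarith)
    obtain ⟨a, hG, h1, h2⟩ := (hf.and_eventually (hev1.and hev2)).exists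
    have h3 := hG.chain L (fun l => tr t (u l) (NN2 R k m a))
      (fun l hl => hwin _ (hu l hl).2 a) (fun l hl => by
        rw [hr a (j+1)]
        exact h1 l (Finset.mem_range.mpr hl)) (by
        have h6 : (0:ℝ) < 2^(NN2 R k m a) := by positivity
        rw [← sub_div, abs_div, abs_of_pos h6, lt_div_iff₀ h6, hbp] at h2
        have h4 : (2:ℝ)^((PP2 R k m a).HJ j + 2) = 1/2^(21 + 2*R.f) / 2^(2*R.β*j) / 2 * 2^(NN2 R k m a) := by
          unfold Pa.HJ
          have h5 := (PP2 R k m a).exp_le (i := j) (by show j ≤ k + 1; omega)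
          rw [hP, hPβ, hPf] at h5 ⊢
          obtain ⟨e, he⟩ : ∃ e, NN2 R k m a = 2*R.β*j + (21 + 2*R.f) + 3 + e :=
            ⟨NN2 R k m a - (2*R.β*j + (21 + 2*R.f) + 3), by omega⟩
          have e1 : NN2 R k m a - 2*R.β*j - 24 - 2*R.f + 2 = e + 2 := by omega
          rw [e1, he, pow_add _ _ e, pow_add _ _ 3, pow_add 2 (2*R.β*j), pow_add 2 e]
          field_simp
        rw [← h4] at h2
        have h7 : ((2:ℤ)^((PP2 R k m a).HJ j + 2) : ℝ) ≤
            ((|tr t (u L) (NN2 R k m a) - tr t (u 0) (NN2 R k m a)| : ℤ) : ℝ) := by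
          push_cast
          exact h2.le
        exact_mod_cast h7)
    exact h3

end Pool.Agent.K7.H80.CD2
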