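import Pool.Agent.K7.H80.CD2.Attr2
import Pool.Agent.R966.CD.Prod

/-!
The expected weight of the bad levels.
-/

set_option autoImplicit false

namespace Pool.Agent.K7.H80.CD2

open Pool.Agent.R966.CD
open MeasureTheory ProbabilityTheory
open scoped NNReal ENNReal

namespace Pa

variable (P : Pa) {n : ℕ}

/-! ### the events only depend on the window -/

theorem S_congr {i : ℕ} {x y : ℤ → E n} (h : ∀ j ∈ P.W i, x j = y j) (u : ℤ) (hu : |u| ≤ P.w i) :
    S x u = S y u := by
  unfold S
  rw [abs_le] at hu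
  congr 1
  · apply Finset.sum_congr rfl
    intro j hj
    rw [Finset.mem_Ico] at hj
    apply h
    unfold W
    rw [Finset.mem_Ico]
    omega
  · apply Finset.sum_congr rfl
    intro j hj
    rw [Finset.mem_Ico] at hj
    apply h
    unfold W
    rw [Finset.mem_Ico]
    omega

theorem OE_congr {i : ℕ} {x y : ℤ → E n} (h : ∀ j ∈ P.W i, x j = y j) (lo hi H : ℕ) (ρ : ℝ)
    (hhi : hi ≤ P.w i) : x ∈ OE n lo hi H ρ ↔ y ∈ OE n lo hi H ρ := by
  unfold OE
  simp only [Set.mem_ofPred_eq]
  rw [Par.Small_congr (f := fun u : ℕ => S x u) (g := fun u : ℕ => S y u) (fun u hu => by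
      apply P.S_congr h
      rw [abs_of_nonneg (Int.natCast_nonneg _)]
      exact_mod_cast hu.trans hhi),
    Par.Small_congr (f := fun u : ℕ => S x (-(u:ℤ))) (g := fun u : ℕ => S y (-(u:ℤ))) (fun u hu => by
      apply P.S_congr h
      rw [abs_neg, abs_of_nonneg (Int.natCast_nonneg _)]
      exact_mod_cast hu.trans hhi)]

theorem F_congr {i : ℕ} (hi : i + 1 ≤ P.k) {x y : ℤ → E n} (h : ∀ j ∈ P.W i, x j = y j) (l : ℕ) :
    x ∈ P.F n i l ↔ y ∈ P.F n i l := by
  have h0 : ∀ u : ℤ, |u| ≤ P.w i → S x u = S y u := P.S_congr h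
  unfold F
  rw [Set.mem_union, Set.mem_union, Set.mem_union, Set.mem_union]
  apply or_congr
  · apply or_congr
    · split
      · unfold Fdown SBd
        rw [Set.mem_union, Set.mem_union]
        apply or_congr (P.OE_congr h _ _ _ _ le_rfl)
        simp only [Set.mem_iUnion]
        constructor
        · rintro ⟨p, hp, h1⟩
          refine ⟨p, hp, ?_⟩
          simp only [Set.mem_ofPred_eq] at h1 ⊢
          rwa [← h0 p (P.anc_abs hp).2, ← h0 0 (by simp)]
        · rintro ⟨p, hp, h1⟩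
          refine ⟨p, hp, ?_⟩
          simp only [Set.mem_ofPred_eq] at h1 ⊢
          rwa [h0 p (P.anc_abs hp).2, h0 0 (by simp)]
      · rfl
    · exact P.OE_congr h _ _ _ _ le_rfl
  · split
    · unfold Fown
      rw [Set.mem_union, Set.mem_union, Set.mem_union, Set.mem_union, Set.mem_union, Set.mem_union,
        Set.mem_union, Set.mem_union]
      refine or_congr ?_ (P.CUT_congr hi h)
      apply or_congr (or_congr (P.OE_congr h _ _ _ _ le_rfl) (P.OE_congr h _ _ _ _ le_rfl))
      apply or_congr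
      · unfold SBp
        simp only [Set.mem_iUnion]
        constructor
        · rintro ⟨pq, hpq, h1⟩
          refine ⟨pq, hpq, ?_⟩
          rw [Finset.mem_filter, Finset.mem_product] at hpq
          simp only [Set.mem_ofPred_eq] at h1 ⊢
          rwa [← h0 _ (P.anc_abs hpq.1.1).2, ← h0 _ (P.anc_abs hpq.1.2).2]
        · rintro ⟨pq, hpq, h1⟩
          refine ⟨pq, hpq, ?_⟩
          rw [Finset.mem_filter, Finset.mem_product] at hpq
          simp only [Set.mem_ofPred_eq] at h1 ⊢
          rwa [h0 _ (P.anc_abs hpq.1.1).2, h0 _ (P.anc_abs hpq.1.2).2]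
      · unfold SBc
        simp only [Set.mem_iUnion]
        constructor
        · rintro ⟨p, hp, h1⟩
          refine ⟨p, hp, ?_⟩
          rw [Finset.mem_filter] at hp
          simp only [Set.mem_ofPred_eq] at h1 ⊢
          rwa [← h0 p (P.anc_abs hp.1).2, ← h0 0 (by simp)]
        · rintro ⟨p, hp, h1⟩
          refine ⟨p, hp, ?_⟩
          rw [Finset.mem_filter] at hp
          simp only [Set.mem_ofPred_eq] at h1 ⊢
          rwa [h0 p (P.anc_abs hp.1).2, h0 0 (by simp)]
    · rfl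

/-! ### the weights of the blocks -/

/-- weight of a block -/
noncomputable def Z (c : ℝ≥0∞) (i : ℕ) : (ℤ → E n) → ℝ≥0∞ := Par.Zs P.k c (P.F n i)

theorem Z_congr (c : ℝ≥0∞) {i : ℕ} (hi : i + 1 ≤ P.k) {x y : ℤ → E n} (h : ∀ j ∈ P.W i, x j = y j) :
    P.Z c i x = P.Z c i y := by
  unfold Z Par.Zs
  congr 1
  apply Finset.sum_congr rfl
  intro l _
  congr 1
  by_cases hx : x ∈ P.F n i l
  · rw [Set.indicator_of_mem hx, Set.indicator_of_mem ((P.F_congr hi h l).mp hx)]
    rfl
  · rw [Set.indicator_of_notMem hx, Set.indicator_of_notMem (fun hy => hx ((P.F_congr hi h l).mpr hy))]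

theorem W_sub {i j : ℕ} (h : i ≤ j) : P.W j ⊆ P.W i := by
  have h1 : (P.w j : ℤ) ≤ P.w i := by exact_mod_cast P.w_anti h
  intro u hu
  unfold W at hu ⊢
  rw [Finset.mem_Ico] at hu ⊢
  omega

/-- product of the weights of every other block -/
noncomputable def Pr (c : ℝ≥0∞) : ℕ → ℕ → (ℤ → E n) → ℝ≥0∞
  | 0, _ => fun _ => 1
  | m+1, i => fun x => P.Z c i x * Pr c m (i+2) x

theorem measurable_Z (c : ℝ≥0∞) (i : ℕ) : Measurable (P.Z (n := n) c i) :=
  Par.measurable_Zs _ _ _ fun l => P.measurable_F n i l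

theorem measurable_Pr (c : ℝ≥0∞) : ∀ m i, Measurable (P.Pr (n := n) c m i) := by
  intro m
  induction m with
  | zero => intro i; exact measurable_const
  | succ m ih =>
    intro i
    exact (P.measurable_Z c i).mul (ih (i+2))

theorem Pr_congr (c : ℝ≥0∞) : ∀ m {i : ℕ} (_ : m = 0 ∨ i + 2*m ≤ P.k + 1) {x y : ℤ → E n}
    (_ : ∀ j ∈ P.W i, x j = y j), P.Pr c m i x = P.Pr c m i y := by
  intro m
  induction m with
  | zero => intro i _ x y _; rfl
  | succ m ih =>
    intro i hi x y h
    show P.Z c i x * P.Pr c m (i+2) x = P.Z c i y * P.Pr c m (i+2) y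
    rw [P.Z_congr c (by omega) h, ih (by omega) (fun j hj => h j (P.W_sub (by omega) hj))]

theorem Pr_bound (hn : 200 ≤ n) (c : ℝ≥0∞)
    (hc : c * ENNReal.ofReal ((1/2 : ℝ)^(19*P.β)) ≤ 2⁻¹) : ∀ m i, (m = 0 ∨ i + 2*m ≤ P.k + 1) →
    ∀ x : ℤ → E n, (∫⋯∫⁻_(P.W i), P.Pr c m i ∂(fun _ => gam n P.v)) x ≤ 2^m := by
  intro m
  induction m with
  | zero =>
    intro i _ x
    have : P.Pr (n := n) c 0 i = fun _ => 1 := rfl
    rw [this, lmarginal_const, pow_zero]
  | succ m ih =>
    intro i hi x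
    have hW : P.W i = P.W (i+2) ∪ P.A i := by
      unfold A
      rw [Finset.union_sdiff_of_subset (P.W_sub (by omega))]
    have hdis : Disjoint (P.W (i+2)) (P.A i) := Finset.disjoint_sdiff
    rw [hW, lmarginal_union _ _ (P.measurable_Pr c (m+1) i) hdis]
    have hstep : (∫⋯∫⁻_(P.A i), P.Pr c (m+1) i ∂(fun _ => gam n P.v)) ≤
        fun y => 2 * P.Pr (n := n) c m (i+2) y := by
      intro y
      have h1 : (∫⋯∫⁻_(P.A i), P.Pr c (m+1) i ∂(fun _ => gam n P.v)) y =
          (∫⋯∫⁻_(P.A i), P.Z c i ∂(fun _ => gam n P.v)) y * P.Pr c m (i+2) y := by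
        have h3 : (∫⋯∫⁻_(P.A i), P.Pr c (m+1) i ∂(fun _ => gam n P.v)) y =
            (∫⋯∫⁻_(P.A i), (fun z => P.Pr c m (i+2) y * P.Z c i z) ∂(fun _ => gam n P.v)) y := by
          unfold lmarginal
          apply lintegral_congr
          intro z
          show P.Z c i _ * P.Pr c m (i+2) _ = P.Pr c m (i+2) y * P.Z c i _
          rw [mul_comm]
          congr 1
          apply P.Pr_congr c m (by omega)
          intro j hj
          rw [Function.updateFinset]
          rw [dif_neg]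
          exact fun hj' => (Finset.disjoint_left.mp hdis) hj hj'
        rw [h3, Par.lmarginal_const_mul _ _ _ _ (P.measurable_Z c i), mul_comm]
      rw [h1]
      apply mul_le_mul_left
      refine Par.lmarginal_Zs P.v (P.A i) P.k c _ _ (fun l => P.measurable_F n i l) y
        (fun l hl => ?_) hc
      refine (P.Q_F hn i l hl (by omega) y).trans (le_of_eq ?_)
      rw [ENNReal.ofReal_pow (by positivity)]
    refine (lmarginal_mono hstep x).trans ?_
    have h2 : (∫⋯∫⁻_(P.W (i+2)), (fun y => 2 * P.Pr (n := n) c m (i+2) y) ∂(fun _ => gam n P.v)) x =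
        2 * (∫⋯∫⁻_(P.W (i+2)), P.Pr c m (i+2) ∂(fun _ => gam n P.v)) x :=
      Par.lmarginal_const_mul _ _ _ _ (P.measurable_Pr c m (i+2)) x
    rw [h2, pow_succ']
    exact mul_le_mul_right (ih (i+2) (by omega) x) _

end Pa

end Pool.Agent.K7.H80.CD2
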